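import Pool.Agent.U892.PD.Stm

/-! Package IMP of project PD (helper892): the implicit function. -/

set_option autoImplicit false

open Filter Topology Set
open scoped ContDiff

namespace Pool.Agent.U94.PD

open Pool.Agent.U892.PD

/-- the point of the line with the parameters `v.1.1` and the abscissa `v.2` -/
def qq (v : ((ℝ × ℝ) × ℝ) × ℝ) : ℝ × ℝ := (v.2, v.1.1.1 + v.1.1.2 * v.2)

/-- the derivative of `qq` -/
noncomputable def qd (v : ((ℝ × ℝ) × ℝ) × ℝ) : ((ℝ × ℝ) × ℝ) × ℝ →L[ℝ] ℝ × ℝ :=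
  (ContinuousLinearMap.snd ℝ ((ℝ × ℝ) × ℝ) ℝ).prod
    ((ContinuousLinearMap.fst ℝ ℝ ℝ) ∘L (ContinuousLinearMap.fst ℝ (ℝ × ℝ) ℝ) ∘L
        (ContinuousLinearMap.fst ℝ ((ℝ × ℝ) × ℝ) ℝ) +
      (v.1.1.2 • (ContinuousLinearMap.snd ℝ ((ℝ × ℝ) × ℝ) ℝ) +
        v.2 • ((ContinuousLinearMap.snd ℝ ℝ ℝ) ∘L (ContinuousLinearMap.fst ℝ (ℝ × ℝ) ℝ) ∘L
          (ContinuousLinearMap.fst ℝ ((ℝ × ℝ) × ℝ) ℝ))))

lemma qd_apply (v d : ((ℝ × ℝ) × ℝ) × ℝ) :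
    qd v d = (d.2, d.1.1.1 + (v.1.1.2 * d.2 + v.2 * d.1.1.2)) := by
  simp [qd]

lemma hasFDerivAt_qq (v : ((ℝ × ℝ) × ℝ) × ℝ) : HasFDerivAt qq (qd v) v := by
  have h1 : HasFDerivAt (fun v : ((ℝ × ℝ) × ℝ) × ℝ => v.2)
    (ContinuousLinearMap.snd ℝ ((ℝ × ℝ) × ℝ) ℝ) v :=
    (ContinuousLinearMap.snd ℝ ((ℝ × ℝ) × ℝ) ℝ).hasFDerivAt
  have h2 : HasFDerivAt (fun v : ((ℝ × ℝ) × ℝ) × ℝ => v.1.1.1)
    ((ContinuousLinearMap.fst ℝ ℝ ℝ) ∘L (ContinuousLinearMap.fst ℝ (ℝ × ℝ) ℝ) ∘L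
        (ContinuousLinearMap.fst ℝ ((ℝ × ℝ) × ℝ) ℝ)) v :=
    ((ContinuousLinearMap.fst ℝ ℝ ℝ) ∘L (ContinuousLinearMap.fst ℝ (ℝ × ℝ) ℝ) ∘L
        (ContinuousLinearMap.fst ℝ ((ℝ × ℝ) × ℝ) ℝ)).hasFDerivAt
  have h3 : HasFDerivAt (fun v : ((ℝ × ℝ) × ℝ) × ℝ => v.1.1.2)
    ((ContinuousLinearMap.snd ℝ ℝ ℝ) ∘L (ContinuousLinearMap.fst ℝ (ℝ × ℝ) ℝ) ∘L
        (ContinuousLinearMap.fst ℝ ((ℝ × ℝ) × ℝ) ℝ)) v :=
    ((ContinuousLinearMap.snd ℝ ℝ ℝ) ∘L (ContinuousLinearMap.fst ℝ (ℝ × ℝ) ℝ) ∘L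
        (ContinuousLinearMap.fst ℝ ((ℝ × ℝ) × ℝ) ℝ)).hasFDerivAt
  exact h1.prodMk (h2.add (h3.mul h1))

lemma contDiff_qq {n : ℕ∞ω} : ContDiff ℝ n qq := by
  unfold qq
  fun_prop

/-- the function of the implicit equation -/
def ff (G : ℝ × ℝ → ℝ) (v : ((ℝ × ℝ) × ℝ) × ℝ) : ℝ := G (qq v) - v.1.2

lemma hasFDerivAt_ff {G : ℝ × ℝ → ℝ} {v : ((ℝ × ℝ) × ℝ) × ℝ} (h : DifferentiableAt ℝ G (qq v)) :
    HasFDerivAt (ff G) ((fderiv ℝ G (qq v)) ∘L (qd v) -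
      (ContinuousLinearMap.snd ℝ (ℝ × ℝ) ℝ) ∘L (ContinuousLinearMap.fst ℝ ((ℝ × ℝ) × ℝ) ℝ)) v := by
  have h1 := h.hasFDerivAt.comp v (hasFDerivAt_qq v)
  exact h1.sub ((ContinuousLinearMap.snd ℝ (ℝ × ℝ) ℝ) ∘L
    (ContinuousLinearMap.fst ℝ ((ℝ × ℝ) × ℝ) ℝ)).hasFDerivAt

lemma lin2 (L : ℝ × ℝ →L[ℝ] ℝ) (a b : ℝ) : L (a, b) = a * L (1, 0) + b * L (0, 1) := by
  have : ((a, b) : ℝ × ℝ) = a • ((1, 0) : ℝ × ℝ) + b • ((0, 1) : ℝ × ℝ) := by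
    ext <;> simp
  rw [this, map_add, map_smul, map_smul, smul_eq_mul, smul_eq_mul]

theorem t_IMP : S_IMP := by
  intro G X hG hG1
  set u : ((ℝ × ℝ) × ℝ) × ℝ := (((0, 0), G (X, 0)), X) with hu
  have hqu : qq u = (X, 0) := by simp [qq, hu]
  have hfu : ff G u = 0 := by simp [ff, hqu]; simp [hu]
  have cdf : ContDiffAt ℝ 21 (ff G) u := by
    unfold ff
    refine ContDiffAt.sub ?_ (by fun_prop)
    refine ContDiffAt.comp u ?_ contDiff_qq.contDiffAt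
    rw [hqu]
    exact hG
  have pn : (21 : ℕ∞ω) ≠ 0 := by norm_num
  have hGd : DifferentiableAt ℝ G (qq u) := by
    rw [hqu]
    exact hG.differentiableAt pn
  have hfd := (hasFDerivAt_ff hGd).fderiv
  have hinr : fderiv ℝ (ff G) u ∘L .inr ℝ ((ℝ × ℝ) × ℝ) ℝ =
      (ContinuousLinearEquiv.unitsEquivAut ℝ (Units.mk0 _ hG1) : ℝ →L[ℝ] ℝ) := by
    ext
    rw [hfd, ContinuousLinearMap.comp_apply, ContinuousLinearMap.sub_apply,
      ContinuousLinearMap.comp_apply, ContinuousLinearMap.comp_apply, qd_apply, hqu]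
    simp [hu]
  have if₂ : (fderiv ℝ (ff G) u ∘L .inr ℝ ((ℝ × ℝ) × ℝ) ℝ).IsInvertible := by
    rw [hinr]
    exact ContinuousLinearMap.isInvertible_equiv
  set x := cdf.implicitFunction pn if₂ with hx
  have c1 : ContDiffAt ℝ 21 x ((0, 0), G (X, 0)) := cdf.contDiffAt_implicitFunction pn if₂
  have c2 : x ((0, 0), G (X, 0)) = X := cdf.implicitFunction_apply_self pn if₂
  have c3 : ∀ᶠ z in 𝓝 (((0, 0), G (X, 0)) : (ℝ × ℝ) × ℝ), ff G (z, x z) = 0 := by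
    have := cdf.eventually_apply_implicitFunction pn if₂
    rw [hfu] at this
    exact this
  -- continuity of the point
  have hct : ContinuousAt (fun z : (ℝ × ℝ) × ℝ => qq (z, x z)) ((0, 0), G (X, 0)) := by
    refine (contDiff_qq (n := 0)).continuous.continuousAt.comp ?_
    exact continuousAt_id.prodMk c1.continuousAt
  have hqz : qq (((0, 0), G (X, 0)), x ((0, 0), G (X, 0))) = (X, 0) := by
    rw [c2]; exact hqu
  have hct' : Tendsto (fun z : (ℝ × ℝ) × ℝ => qq (z, x z)) (𝓝 ((0, 0), G (X, 0))) (𝓝 (X, 0)) := by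
    have := hct.tendsto
    rw [hqz] at this
    exact this
  have d1 : ∀ᶠ z in 𝓝 (((0, 0), G (X, 0)) : (ℝ × ℝ) × ℝ), DifferentiableAt ℝ G (qq (z, x z)) := by
    refine hct'.eventually ((hG.eventually (by simp)).mono fun p hp => ?_)
    exact hp.differentiableAt pn
  have d2 : ∀ᶠ z in 𝓝 (((0, 0), G (X, 0)) : (ℝ × ℝ) × ℝ), DifferentiableAt ℝ x z :=
    (c1.eventually (by simp)).mono fun p hp => hp.differentiableAt pn
  have d3 : ∀ᶠ z in 𝓝 (((0, 0), G (X, 0)) : (ℝ × ℝ) × ℝ),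
      fderiv ℝ G (qq (z, x z)) (1, 0) + z.1.2 * fderiv ℝ G (qq (z, x z)) (0, 1) ≠ 0 := by
    have hfc : ContinuousAt (fderiv ℝ G) (X, 0) :=
      (hG.fderiv_right (m := 20) (by norm_num)).continuousAt
    have h1 : Tendsto (fun z : (ℝ × ℝ) × ℝ => fderiv ℝ G (qq (z, x z)))
        (𝓝 ((0, 0), G (X, 0))) (𝓝 (fderiv ℝ G (X, 0))) := hfc.tendsto.comp hct'
    have h2 : Tendsto (fun z : (ℝ × ℝ) × ℝ => fderiv ℝ G (qq (z, x z)) (1, 0))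
        (𝓝 ((0, 0), G (X, 0))) (𝓝 (fderiv ℝ G (X, 0) (1, 0))) :=
      ((ContinuousLinearMap.apply ℝ ℝ ((1, 0) : ℝ × ℝ)).continuous.tendsto _).comp h1
    have h3 : Tendsto (fun z : (ℝ × ℝ) × ℝ => fderiv ℝ G (qq (z, x z)) (0, 1))
        (𝓝 ((0, 0), G (X, 0))) (𝓝 (fderiv ℝ G (X, 0) (0, 1))) :=
      ((ContinuousLinearMap.apply ℝ ℝ ((0, 1) : ℝ × ℝ)).continuous.tendsto _).comp h1
    have h4 : Tendsto (fun z : (ℝ × ℝ) × ℝ => z.1.2) (𝓝 ((0, 0), G (X, 0))) (𝓝 0) := by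
      have : Continuous fun z : (ℝ × ℝ) × ℝ => z.1.2 := by fun_prop
      exact this.tendsto' _ _ rfl
    have h5 := h2.add (h4.mul h3)
    rw [zero_mul, add_zero] at h5
    exact h5.eventually_ne hG1
  -- the derivatives of the implicit equation
  have key : ∀ z : (ℝ × ℝ) × ℝ, DifferentiableAt ℝ G (qq (z, x z)) → DifferentiableAt ℝ x z →
      (∀ᶠ w in 𝓝 z, ff G (w, x w) = 0) → ∀ d : (ℝ × ℝ) × ℝ,
      fderiv ℝ x z d * (fderiv ℝ G (qq (z, x z)) (1, 0) +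
        z.1.2 * fderiv ℝ G (qq (z, x z)) (0, 1)) +
        (d.1.1 + x z * d.1.2) * fderiv ℝ G (qq (z, x z)) (0, 1) - d.2 = 0 := by
    intro z e1 e2 e3 d
    have h1 : HasFDerivAt (fun w => (w, x w)) ((ContinuousLinearMap.id ℝ ((ℝ × ℝ) × ℝ)).prod
        (fderiv ℝ x z)) z := (hasFDerivAt_id z).prodMk e2.hasFDerivAt
    have h2 := (hasFDerivAt_ff (v := (z, x z)) e1).comp z h1
    have h3 : HasFDerivAt (ff G ∘ fun w => (w, x w)) (0 : (ℝ × ℝ) × ℝ →L[ℝ] ℝ) z :=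
      (hasFDerivAt_const (0 : ℝ) z).congr_of_eventuallyEq e3
    have h4 := h2.unique h3
    have h5 := congrArg (fun L : (ℝ × ℝ) × ℝ →L[ℝ] ℝ => L d) h4
    simp only [ContinuousLinearMap.comp_apply, ContinuousLinearMap.sub_apply, qd_apply,
      ContinuousLinearMap.prod_apply, ContinuousLinearMap.zero_apply,
      ContinuousLinearMap.coe_id', id_eq, ContinuousLinearMap.coe_fst',
      ContinuousLinearMap.coe_snd'] at h5
    rw [lin2] at h5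
    linarith
  refine ⟨x, c1.of_le (by norm_num), c2, ?_, ?_, ?_, ?_⟩
  · refine c3.mono fun z hz => ?_
    have : ff G (z, x z) = G (x z, z.1.1 + z.1.2 * x z) - z.2 := rfl
    rw [this] at hz
    linarith
  · filter_upwards [d1, d2, d3, c3.eventually_nhds] with z e1 e2 e3 e4
    have k1 := key z e1 e2 e4 ((0, 1), 0)
    have k2 := key z e1 e2 e4 ((1, 0), 0)
    simp only [mul_zero, mul_one, add_zero, zero_add, sub_zero, one_mul] at k1 k2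
    have k3 : (fderiv ℝ x z ((0, 1), 0) - x z * fderiv ℝ x z ((1, 0), 0)) *
        (fderiv ℝ G (qq (z, x z)) (1, 0) + z.1.2 * fderiv ℝ G (qq (z, x z)) (0, 1)) = 0 := by
      linear_combination k1 - x z * k2
    have k4 := (mul_eq_zero.1 k3).resolve_right e3
    linarith
  · have k := key ((0, 0), G (X, 0)) d1.self_of_nhds d2.self_of_nhds c3 ((0, 0), 1)
    rw [hqz] at k
    simp only [mul_zero, zero_mul, add_zero] at k
    linarith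
  · have h := cdf.eventually_apply_eq_iff_implicitFunction pn if₂
    have hcv : ContinuousAt (fun p : ℝ × ℝ => ((((p.2, 0), G p), p.1) : ((ℝ × ℝ) × ℝ) × ℝ))
        (X, 0) := by
      have := hG.continuousAt
      fun_prop
    have h2 : Tendsto (fun p : ℝ × ℝ => ((((p.2, 0), G p), p.1) : ((ℝ × ℝ) × ℝ) × ℝ))
        (𝓝 (X, 0)) (𝓝 u) := hcv.tendsto
    refine (h2.eventually h).mono fun p hp => ?_
    refine hp.1 ?_
    rw [hfu]
    simp [ff, qq]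

end Pool.Agent.U94.PD
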